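import Pool.Agent.Helper16.BZ.Stmts

/-!
PDT: trigonometric polynomials along the orbits of an affine map (MP_7a8f48_an).
-/

open Finset Filter MeasureTheory Topology
open scoped ComplexConjugate InnerProductSpace

namespace Pool.Agent.Helper16.BZ

open Pool.Agent.Helper16.AZ (T E Op mm Eig PP ST_VDH ST_MSR ST_MRF ST_FPV ST_TLR)
open Pool.Agent.Helper16.MD (MS PB Am RW Rich)
open UnitAddTorus (mFourier)

/-- the sequences are orthogonal -/
def pdt_Z (u v : ℕ → ℂ) : Prop :=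
  Tendsto (fun M : ℕ => (∑ y ∈ Icc 1 M, u y * conj (v y)) / (M : ℂ)) atTop (𝓝 0)

/-- the mean square is at most `c` -/
def pdt_B (u : ℕ → ℂ) (c : ℝ) : Prop := ∀ ε : ℝ, 0 < ε → ∀ᶠ M : ℕ in atTop,
  ∑ y ∈ Icc 1 M, ‖u y‖ ^ 2 ≤ (c + ε) * M

theorem pdt_Z_symm {u v : ℕ → ℂ} (h : pdt_Z u v) : pdt_Z v u := by
  have h1 := (Complex.continuous_conj.tendsto 0).comp h
  rw [map_zero] at h1
  refine h1.congr fun M => ?_
  simp only [Function.comp, map_div₀, map_sum, map_mul, Complex.conj_conj, Complex.conj_natCast]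
  congr 1
  exact Finset.sum_congr rfl fun y _ => mul_comm _ _

theorem pdt_Z_smul {u v : ℕ → ℂ} (c : ℂ) (h : pdt_Z u v) : pdt_Z (fun y => c * u y) v := by
  have h1 := Tendsto.const_mul c h
  rw [mul_zero] at h1
  refine h1.congr fun M => ?_
  rw [← mul_div_assoc, Finset.mul_sum]
  simp only [mul_assoc]

theorem pdt_Z_sum {ι : Type} (J : Finset ι) {u : ι → ℕ → ℂ} {v : ℕ → ℂ}
    (h : ∀ j ∈ J, pdt_Z (u j) v) : pdt_Z (fun y => ∑ j ∈ J, u j y) v := by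
  have h1 := tendsto_finsetSum J h
  rw [Finset.sum_const_zero] at h1
  refine h1.congr fun M => ?_
  rw [← Finset.sum_div, Finset.sum_comm]
  congr 1
  exact Finset.sum_congr rfl fun y _ => by rw [Finset.sum_mul]

theorem pdt_Z_bound {u v : ℕ → ℂ} (h : pdt_Z u v) (ε : ℝ) (hε : 0 < ε) :
    ∀ᶠ M : ℕ in atTop, ‖∑ y ∈ Icc 1 M, u y * conj (v y)‖ ≤ ε * M := by
  unfold pdt_Z at h
  rw [Metric.tendsto_nhds] at h
  filter_upwards [h ε hε, eventually_ge_atTop 1] with M hM hM1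
  have hpos : (0 : ℝ) < M := by exact_mod_cast hM1
  rw [dist_zero_right, norm_div, Complex.norm_natCast, div_lt_iff₀ hpos] at hM
  exact hM.le

theorem pdt_B_add {u v : ℕ → ℂ} {c c' : ℝ} (hu : pdt_B u c) (hv : pdt_B v c')
    (h : pdt_Z u v) : pdt_B (fun y => u y + v y) (c + c') := by
  intro ε hε
  filter_upwards [hu (ε / 4) (by positivity), hv (ε / 4) (by positivity),
    pdt_Z_bound h (ε / 4) (by positivity)] with M h1 h2 h3
  have h4 : ∑ y ∈ Icc 1 M, ‖u y + v y‖ ^ 2 = ∑ y ∈ Icc 1 M, ‖u y‖ ^ 2 +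
      ∑ y ∈ Icc 1 M, ‖v y‖ ^ 2 + 2 * (∑ y ∈ Icc 1 M, u y * conj (v y)).re := by
    rw [Complex.re_sum, Finset.mul_sum, ← Finset.sum_add_distrib, ← Finset.sum_add_distrib]
    refine Finset.sum_congr rfl fun y _ => ?_
    rw [← Complex.normSq_eq_norm_sq, ← Complex.normSq_eq_norm_sq, ← Complex.normSq_eq_norm_sq,
      Complex.normSq_add]
  rw [h4]
  have h5 := Complex.re_le_norm (∑ y ∈ Icc 1 M, u y * conj (v y))
  linarith

theorem pdt_B_mono {u : ℕ → ℂ} {c c' : ℝ} (h : pdt_B u c) (hc : c ≤ c') : pdt_B u c' := by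
  intro ε hε
  filter_upwards [h ε hε] with M hM
  exact hM.trans (mul_le_mul_of_nonneg_right (by linarith) (Nat.cast_nonneg M))

theorem pdt_B_two {u v : ℕ → ℂ} {c c' : ℝ} (hu : pdt_B u c) (hv : pdt_B v c') :
    pdt_B (fun y => u y + v y) (2 * c + 2 * c') := by
  intro ε hε
  filter_upwards [hu (ε / 4) (by positivity), hv (ε / 4) (by positivity)] with M h1 h2
  have h3 : ∑ y ∈ Icc 1 M, ‖u y + v y‖ ^ 2 ≤
      2 * ∑ y ∈ Icc 1 M, ‖u y‖ ^ 2 + 2 * ∑ y ∈ Icc 1 M, ‖v y‖ ^ 2 := by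
    rw [Finset.mul_sum, Finset.mul_sum, ← Finset.sum_add_distrib]
    refine Finset.sum_le_sum fun y _ => ?_
    have h4 : ‖u y + v y‖ ^ 2 ≤ (‖u y‖ + ‖v y‖) ^ 2 :=
      pow_le_pow_left₀ (norm_nonneg _) (norm_add_le _ _) 2
    nlinarith [sq_nonneg (‖u y‖ - ‖v y‖)]
  linarith

theorem pdt_B_one (a : ℂ) (e : ℕ → ℂ) (he : ∀ y, ‖e y‖ ≤ 1) :
    pdt_B (fun y => a * e y) (‖a‖ ^ 2) := by
  intro ε hε
  refine Eventually.of_forall fun M => ?_
  have h1 : ∑ y ∈ Icc 1 M, ‖a * e y‖ ^ 2 ≤ ∑ _y ∈ Icc 1 M, ‖a‖ ^ 2 := by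
    refine Finset.sum_le_sum fun y _ => ?_
    rw [norm_mul]
    exact pow_le_pow_left₀ (by positivity) (mul_le_of_le_one_right (norm_nonneg _) (he y)) 2
  refine h1.trans ?_
  rw [Finset.sum_const, Nat.card_Icc, nsmul_eq_mul, Nat.add_sub_cancel]
  have h2 : (0 : ℝ) ≤ ε * M := by positivity
  linarith

theorem pdt_B_sum {ι : Type} (J : Finset ι) {g : ι → ℕ → ℂ} {c : ι → ℝ}
    (h : ∀ j ∈ J, pdt_B (g j) (c j))
    (hz : ∀ j ∈ J, ∀ j' ∈ J, j ≠ j' → pdt_Z (g j) (g j')) :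
    pdt_B (fun y => ∑ j ∈ J, g j y) (∑ j ∈ J, c j) := by
  classical
  induction J using Finset.induction_on with
  | empty =>
    intro ε hε
    refine Eventually.of_forall fun M => ?_
    have h2 : (0 : ℝ) ≤ ε * M := by positivity
    simpa using h2
  | insert a s ha ih =>
    have h1 := ih (fun j hj => h j (mem_insert_of_mem hj))
      (fun j hj j' hj' => hz j (mem_insert_of_mem hj) j' (mem_insert_of_mem hj'))
    have h2 : pdt_Z (g a) (fun y => ∑ j ∈ s, g j y) :=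
      pdt_Z_symm (pdt_Z_sum s fun j hj => hz j (mem_insert_of_mem hj) a (mem_insert_self a s)
        (by rintro rfl; exact ha hj))
    have h3 := pdt_B_add (h a (mem_insert_self a s)) h1 h2
    simpa only [Finset.sum_insert ha] using h3

theorem pdt_B_cs {ι : Type} (P : Finset ι) (n : ℕ) (hn : P.card ≤ n) {g : ι → ℕ → ℂ}
    {c : ι → ℝ} (h : ∀ p ∈ P, pdt_B (g p) (c p)) :
    pdt_B (fun y => ∑ p ∈ P, g p y) (n * ∑ p ∈ P, c p) := by
  intro ε hε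
  have h1 : ∀ᶠ M : ℕ in atTop, ∀ p ∈ P,
      ∑ y ∈ Icc 1 M, ‖g p y‖ ^ 2 ≤ (c p + ε / ((n : ℝ) ^ 2 + 1)) * M := by
    rw [Filter.eventually_all_finset]
    exact fun p hp => h p hp _ (by positivity)
  filter_upwards [h1] with M hM
  have hnc : (P.card : ℝ) ≤ n := by exact_mod_cast hn
  calc ∑ y ∈ Icc 1 M, ‖∑ p ∈ P, g p y‖ ^ 2
      ≤ ∑ y ∈ Icc 1 M, (n : ℝ) * ∑ p ∈ P, ‖g p y‖ ^ 2 := by
        refine Finset.sum_le_sum fun y _ => ?_
        have h2 : ‖∑ p ∈ P, g p y‖ ^ 2 ≤ (∑ p ∈ P, ‖g p y‖) ^ 2 :=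
          pow_le_pow_left₀ (norm_nonneg _) (norm_sum_le _ _) 2
        have h3 := sq_sum_le_card_mul_sum_sq (s := P) (f := fun p => ‖g p y‖)
        have h4 : (P.card : ℝ) * ∑ p ∈ P, ‖g p y‖ ^ 2 ≤ n * ∑ p ∈ P, ‖g p y‖ ^ 2 :=
          mul_le_mul_of_nonneg_right hnc (Finset.sum_nonneg fun p _ => sq_nonneg _)
        exact h2.trans (h3.trans h4)
    _ = n * ∑ p ∈ P, ∑ y ∈ Icc 1 M, ‖g p y‖ ^ 2 := by
        rw [← Finset.mul_sum, Finset.sum_comm]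
    _ ≤ n * ∑ p ∈ P, (c p + ε / ((n : ℝ) ^ 2 + 1)) * M :=
        mul_le_mul_of_nonneg_left (Finset.sum_le_sum hM) (by positivity)
    _ ≤ (n * ∑ p ∈ P, c p + ε) * M := by
        rw [← Finset.sum_mul, Finset.sum_add_distrib, Finset.sum_const, nsmul_eq_mul,
          ← mul_assoc]
        refine mul_le_mul_of_nonneg_right ?_ (Nat.cast_nonneg M)
        have h5 : (n : ℝ) * (P.card * (ε / ((n : ℝ) ^ 2 + 1))) ≤ ε := by
          have h6 : (n : ℝ) * (P.card * (ε / ((n : ℝ) ^ 2 + 1))) ≤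
              (n : ℝ) * (n * (ε / ((n : ℝ) ^ 2 + 1))) :=
            mul_le_mul_of_nonneg_left (mul_le_mul_of_nonneg_right hnc (by positivity))
              (by positivity)
          refine h6.trans ?_
          rw [← mul_assoc, mul_div_assoc', div_le_iff₀ (by positivity)]
          nlinarith
        rw [mul_add]
        linarith

theorem pdt_norm {r : ℕ} (X : Fin r → ℤ) (z : T r) : ‖mFourier X z‖ ≤ 1 :=
  ((mFourier X).norm_coe_le_norm z).trans UnitAddTorus.mFourier_norm.le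

open Classical in
/-- the largest `k` with `X N^k ≠ 0` -/
noncomputable def pdt_k {r : ℕ} (A : Matrix (Fin r) (Fin r) ℤ) (X : Fin r → ℤ) : ℕ :=
  Nat.findGreatest (fun k => Matrix.vecMul X ((A - 1) ^ k) ≠ 0) r

theorem pdt_k_spec {r : ℕ} (A : Matrix (Fin r) (Fin r) ℤ) (hA : (A - 1) ^ r = 0)
    (X : Fin r → ℤ) (hX : X ≠ 0) : pdt_k A X < r ∧
    Matrix.vecMul X ((A - 1) ^ (pdt_k A X)) ≠ 0 ∧
    ∀ k', pdt_k A X < k' → Matrix.vecMul X ((A - 1) ^ k') = 0 := by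
  classical
  have h0 : Matrix.vecMul X ((A - 1) ^ 0) ≠ 0 := by
    rw [pow_zero, Matrix.vecMul_one]
    exact hX
  have h1 : Matrix.vecMul X ((A - 1) ^ (pdt_k A X)) ≠ 0 := by
    unfold pdt_k
    exact Nat.findGreatest_spec (P := fun k => Matrix.vecMul X ((A - 1) ^ k) ≠ 0)
      (Nat.zero_le r) h0
  have hle : pdt_k A X ≤ r := by
    unfold pdt_k
    exact Nat.findGreatest_le r
  refine ⟨?_, h1, ?_⟩
  · rcases hle.lt_or_eq with h | h
    · exact h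
    · exfalso
      apply h1
      rw [h, hA, Matrix.vecMul_zero]
  · intro k' hk'
    rcases Nat.lt_or_ge r k' with h | h
    · obtain ⟨s, rfl⟩ := Nat.exists_eq_add_of_lt h
      rw [add_assoc, pow_add, hA, zero_mul, Matrix.vecMul_zero]
    · by_contra hne
      unfold pdt_k at hk'
      exact Nat.findGreatest_is_greatest hk' h hne

/-- the key of a frequency -/
noncomputable def pdt_key {r : ℕ} (A : Matrix (Fin r) (Fin r) ℤ) (p : ℕ) (X : Fin r → ℤ) :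
    ℕ × (Fin r → ℤ) :=
  (pdt_k A X, (p : ℤ) ^ (pdt_k A X + 1) • Matrix.vecMul X ((A - 1) ^ (pdt_k A X)))

theorem pdt_smul_ne {r : ℕ} (p k : ℕ) (hp : 1 ≤ p) (v : Fin r → ℤ) (hv : v ≠ 0) :
    (p : ℤ) ^ (k + 1) • v ≠ 0 := by
  intro h
  rcases smul_eq_zero.1 h with h1 | h1
  · have h2 : (p : ℤ) ≠ 0 := by exact_mod_cast (by omega : p ≠ 0)
    exact pow_ne_zero _ h2 h1
  · exact hv h1

theorem pdt_orth (hPO : ST_PO) {r : ℕ} (A : Matrix (Fin r) (Fin r) ℤ) (β : T r)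
    (S : T r → T r) (x : T r) (hAff : Aff A β S) (hMin : Min A β) (p p' : ℕ) (hp : 1 ≤ p)
    (hp' : 1 ≤ p') (X X' : Fin r → ℤ) (hX : X ≠ 0) (hX' : X' ≠ 0)
    (hne : pdt_key A p X ≠ pdt_key A p' X') :
    pdt_Z (fun y => mFourier X (S^[p * y] x)) (fun y => mFourier X' (S^[p' * y] x)) := by
  obtain ⟨h1, h2, h3⟩ := pdt_k_spec A hMin.1 X hX
  obtain ⟨h1', h2', h3'⟩ := pdt_k_spec A hMin.1 X' hX'
  rcases lt_trichotomy (pdt_k A X) (pdt_k A X') with h | h | h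
  · refine hPO r A β S hAff hMin (pdt_k A X') p p' X X' x hp hp' (h3 _ (by omega))
      (h3' _ (by omega)) ?_
    rw [h3 _ h, smul_zero]
    exact (pdt_smul_ne p' _ hp' _ h2').symm
  · refine hPO r A β S hAff hMin (pdt_k A X) p p' X X' x hp hp' (h3 _ (by omega))
      (h3' _ (by omega)) ?_
    intro h4
    apply hne
    unfold pdt_key
    rw [h4, h]
  · refine hPO r A β S hAff hMin (pdt_k A X) p p' X X' x hp hp' (h3 _ (by omega))
      (h3' _ (by omega)) ?_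
    rw [h3' _ h, smul_zero]
    exact pdt_smul_ne p _ hp _ h2

theorem pdt_zero (hPO : ST_PO) {r : ℕ} (A : Matrix (Fin r) (Fin r) ℤ) (β : T r)
    (S : T r → T r) (x : T r) (hAff : Aff A β S) (hMin : Min A β) (p : ℕ) (hp : 1 ≤ p)
    (X : Fin r → ℤ) (hX : X ≠ 0) :
    pdt_Z (fun y => mFourier X (S^[p * y] x)) (fun _ => 1) := by
  obtain ⟨h1, h2, h3⟩ := pdt_k_spec A hMin.1 X hX
  have h4 := hPO r A β S hAff hMin (pdt_k A X) p p X 0 x hp hp (h3 _ (by omega))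
    (Matrix.zero_vecMul _) (by
      rw [Matrix.zero_vecMul, smul_zero]
      exact pdt_smul_ne p _ hp _ h2)
  unfold pdt_Z
  simpa only [UnitAddTorus.mFourier_zero, ContinuousMap.one_apply] using h4

theorem pdt_same (hPO : ST_PO) {r : ℕ} (A : Matrix (Fin r) (Fin r) ℤ) (β : T r)
    (S : T r → T r) (x : T r) (hAff : Aff A β S) (hMin : Min A β) (p : ℕ) (hp : 1 ≤ p)
    (X X' : Fin r → ℤ) (hne : X ≠ X') :
    pdt_Z (fun y => mFourier X (S^[p * y] x)) (fun y => mFourier X' (S^[p * y] x)) := by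
  have h1 := pdt_zero hPO A β S x hAff hMin p hp (X + -X') (by
    intro h
    exact hne (add_neg_eq_zero.1 h))
  unfold pdt_Z at h1 ⊢
  simpa only [UnitAddTorus.mFourier_add, UnitAddTorus.mFourier_neg, map_one, mul_one] using h1

theorem pdt_Z_smul2 {u v : ℕ → ℂ} (c c' : ℂ) (h : pdt_Z u v) :
    pdt_Z (fun y => c * u y) (fun y => c' * v y) :=
  pdt_Z_smul c (pdt_Z_symm (pdt_Z_smul c' (pdt_Z_symm h)))

theorem pdt_Z_add {u v w : ℕ → ℂ} (h : pdt_Z u w) (h' : pdt_Z v w) :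
    pdt_Z (fun y => u y + v y) w := by
  have h1 := Tendsto.add h h'
  rw [add_zero] at h1
  refine h1.congr fun M => ?_
  rw [← add_div, ← Finset.sum_add_distrib]
  simp only [add_mul]

theorem st_PDT (hPO : ST_PO) : ST_PDT := by
  classical
  intro r A β S x Q F a L n₀ τ hAff hMin hQ h0F ha2 haτ hn₀ ε hε
  obtain ⟨e, he⟩ : ∃ e : ℕ → (Fin r → ℤ) → ℕ → ℂ, e = fun p X y => mFourier X (S^[p * y] x) :=
    ⟨_, rfl⟩
  have he1 : ∀ p X y, ‖e p X y‖ ≤ 1 := by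
    intro p X y
    rw [he]
    exact pdt_norm _ _
  have hsame : ∀ p ∈ Q, ∀ X X', X ≠ X' → pdt_Z (e p X) (e p X') := by
    intro p hp X X' hne
    rw [he]
    exact pdt_same hPO A β S x hAff hMin p (hQ p hp) X X' hne
  have horth : ∀ p ∈ Q, ∀ p' ∈ Q, ∀ X X', X ≠ 0 → X' ≠ 0 → pdt_key A p X ≠ pdt_key A p' X' →
      pdt_Z (e p X) (e p' X') := by
    intro p hp p' hp' X X' hX hX' hne
    rw [he]
    exact pdt_orth hPO A β S x hAff hMin p p' (hQ p hp) (hQ p' hp') X X' hX hX' hne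
  have hzero : ∀ p ∈ Q, ∀ X, X ≠ 0 → pdt_Z (e p X) (fun _ => 1) := by
    intro p hp X hX
    rw [he]
    exact pdt_zero hPO A β S x hAff hMin p (hQ p hp) X hX
  obtain ⟨Fh, hFh⟩ : ∃ Fh, Fh = F.filter (fun X => ∃ j, (L : ℤ) < |X j|) := ⟨_, rfl⟩
  obtain ⟨Fl, hFl⟩ : ∃ Fl, Fl =
    (F.filter (fun X => ¬ ∃ j, (L : ℤ) < |X j|)).filter (fun X => ¬ X = 0) := ⟨_, rfl⟩
  have hz0 : (F.filter (fun X => ¬ ∃ j, (L : ℤ) < |X j|)).filter (fun X => X = 0) = {0} := by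
    ext X
    simp only [Finset.mem_filter, Finset.mem_singleton]
    constructor
    · exact fun h => h.2
    · rintro rfl
      refine ⟨⟨h0F, ?_⟩, rfl⟩
      rintro ⟨j, hj⟩
      simp only [Pi.zero_apply, abs_zero] at hj
      omega
  have hsplit : ∀ t : (Fin r → ℤ) → ℂ,
      ∑ X ∈ F, t X = t 0 + (∑ X ∈ Fl, t X + ∑ X ∈ Fh, t X) := by
    intro t
    rw [← Finset.sum_filter_add_sum_filter_not F (fun X => ∃ j, (L : ℤ) < |X j|) t,
      ← Finset.sum_filter_add_sum_filter_not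
        (F.filter (fun X => ¬ ∃ j, (L : ℤ) < |X j|)) (fun X => X = 0) t, hz0,
      Finset.sum_singleton, ← hFl, ← hFh]
    ring
  have hlow : ∀ X ∈ Fl, X ≠ 0 ∧ ∀ j, |X j| ≤ (L : ℤ) := by
    intro X hX
    rw [hFl, Finset.mem_filter, Finset.mem_filter] at hX
    exact ⟨hX.2, fun j => not_lt.1 fun h => hX.1.2 ⟨j, h⟩⟩
  have hlsub : Fl ⊆ F := by
    rw [hFl]
    exact (Finset.filter_subset _ _).trans (Finset.filter_subset _ _)
  have hhsub : Fh ⊆ F := by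
    rw [hFh]
    exact Finset.filter_subset _ _
  have hhigh : ∀ X ∈ Fh, ∃ j, (L : ℤ) < |X j| := by
    intro X hX
    rw [hFh, Finset.mem_filter] at hX
    exact hX.2
  have hhne : ∀ X ∈ Fh, X ≠ 0 := by
    rintro X hX rfl
    obtain ⟨j, hj⟩ := hhigh 0 hX
    simp only [Pi.zero_apply, abs_zero] at hj
    omega
  -- the high part
  have hBh : pdt_B (fun y => ∑ p ∈ Q, ∑ X ∈ Fh, a p X * e p X y)
      ((Q.card : ℝ) * ∑ _p ∈ Q, τ) :=
    pdt_B_cs Q Q.card le_rfl fun p hp => pdt_B_mono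
      (pdt_B_sum Fh (fun X _ => pdt_B_one (a p X) (e p X) (he1 p X))
        (fun X _ X' _ hne => pdt_Z_smul2 _ _ (hsame p hp X X' hne)))
      (haτ p hp Fh hhsub hhigh)
  -- the low part
  obtain ⟨K, hK⟩ : ∃ K : Finset (ℕ × (Fin r → ℤ)),
    K = Q.biUnion (fun p => Fl.image (pdt_key A p)) := ⟨_, rfl⟩
  have hlowsum : ∀ (R : Type) [AddCommMonoid R] (t : ℕ → (Fin r → ℤ) → R),
      ∑ p ∈ Q, ∑ X ∈ Fl, t p X =
        ∑ κ ∈ K, ∑ p ∈ Q, ∑ X ∈ Fl.filter (fun X => pdt_key A p X = κ), t p X := by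
    intro R _ t
    rw [Finset.sum_comm (s := K)]
    refine Finset.sum_congr rfl fun p hp => ?_
    refine (Finset.sum_fiberwise_of_maps_to (fun X hX => ?_) _).symm
    rw [hK]
    exact Finset.mem_biUnion.2 ⟨p, hp, Finset.mem_image_of_mem _ hX⟩
  obtain ⟨P, hP⟩ : ∃ P : ℕ × (Fin r → ℤ) → Finset ℕ, P = fun κ =>
    Q.filter (fun p => (Fl.filter (fun X => pdt_key A p X = κ)).Nonempty) := ⟨_, rfl⟩
  have hPsum : ∀ (R : Type) [AddCommMonoid R] (κ : ℕ × (Fin r → ℤ))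
      (t : ℕ → (Fin r → ℤ) → R),
      ∑ p ∈ Q, ∑ X ∈ Fl.filter (fun X => pdt_key A p X = κ), t p X =
        ∑ p ∈ P κ, ∑ X ∈ Fl.filter (fun X => pdt_key A p X = κ), t p X := by
    intro R _ κ t
    rw [hP]
    refine (Finset.sum_filter_of_ne fun p _ hne => ?_).symm
    by_contra hemp
    rw [Finset.not_nonempty_iff_eq_empty] at hemp
    rw [hemp, Finset.sum_empty] at hne
    exact hne rfl
  have hcard : ∀ κ ∈ K, (P κ).card ≤ n₀ := by
    intro κ hκ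
    rw [hK] at hκ
    obtain ⟨p₀, hp₀, hκ2⟩ := Finset.mem_biUnion.1 hκ
    obtain ⟨X₀, hX₀, hκ3⟩ := Finset.mem_image.1 hκ2
    obtain ⟨h1, h2, h3⟩ := pdt_k_spec A hMin.1 X₀ (hlow X₀ hX₀).1
    refine hn₀ κ.1 (by rw [← hκ3]; exact h1) κ.2 (by
      rw [← hκ3]
      exact pdt_smul_ne p₀ _ (hQ p₀ hp₀) _ h2) (P κ) (by
      rw [hP]
      exact Finset.filter_subset _ _) ?_
    intro p hp
    rw [hP] at hp
    obtain ⟨X, hX⟩ := (Finset.mem_filter.1 hp).2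
    obtain ⟨hX1, hX2⟩ := Finset.mem_filter.1 hX
    refine ⟨X, (hlow X hX1).2, ?_⟩
    rw [← hX2]
    rfl
  have hBκ : ∀ κ ∈ K, pdt_B
      (fun y => ∑ p ∈ Q, ∑ X ∈ Fl.filter (fun X => pdt_key A p X = κ), a p X * e p X y)
      (n₀ * ∑ p ∈ Q, ∑ X ∈ Fl.filter (fun X => pdt_key A p X = κ), ‖a p X‖ ^ 2) := by
    intro κ hκ
    have h1 : pdt_B
        (fun y => ∑ p ∈ P κ, ∑ X ∈ Fl.filter (fun X => pdt_key A p X = κ), a p X * e p X y)
        (n₀ * ∑ p ∈ P κ, ∑ X ∈ Fl.filter (fun X => pdt_key A p X = κ), ‖a p X‖ ^ 2) := by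
      refine pdt_B_cs (P κ) n₀ (hcard κ hκ) fun p hp => ?_
      have hpQ : p ∈ Q := by
        rw [hP] at hp
        exact (Finset.mem_filter.1 hp).1
      exact pdt_B_sum _ (fun X _ => pdt_B_one (a p X) (e p X) (he1 p X))
        (fun X _ X' _ hne => pdt_Z_smul2 _ _ (hsame p hpQ X X' hne))
    have h2 : (fun y => ∑ p ∈ Q, ∑ X ∈ Fl.filter (fun X => pdt_key A p X = κ),
        a p X * e p X y) = fun y => ∑ p ∈ P κ, ∑ X ∈ Fl.filter (fun X => pdt_key A p X = κ),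
        a p X * e p X y := by
      funext y
      exact hPsum ℂ κ fun p X => a p X * e p X y
    rw [h2, hPsum ℝ κ fun p X => ‖a p X‖ ^ 2]
    exact h1
  have hZκ : ∀ κ ∈ K, ∀ κ' ∈ K, κ ≠ κ' → pdt_Z
      (fun y => ∑ p ∈ Q, ∑ X ∈ Fl.filter (fun X => pdt_key A p X = κ), a p X * e p X y)
      (fun y => ∑ p ∈ Q, ∑ X ∈ Fl.filter (fun X => pdt_key A p X = κ'), a p X * e p X y) := by
    intro κ _ κ' _ hne
    refine pdt_Z_sum Q fun p hp => pdt_Z_sum _ fun X hX => pdt_Z_symm ?_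
    refine pdt_Z_sum Q fun p' hp' => pdt_Z_sum _ fun X' hX' => ?_
    obtain ⟨hX1, hX2⟩ := Finset.mem_filter.1 hX
    obtain ⟨hX1', hX2'⟩ := Finset.mem_filter.1 hX'
    refine pdt_Z_smul2 _ _ (horth p' hp' p hp X' X (hlow X' hX1').1 (hlow X hX1).1 ?_)
    rw [hX2, hX2']
    exact hne.symm
  have hBl : pdt_B (fun y => ∑ p ∈ Q, ∑ X ∈ Fl, a p X * e p X y)
      (n₀ * (2 * (Q.card : ℝ))) := by
    have h1 := pdt_B_sum K hBκ hZκ
    have h2 : (fun y => ∑ p ∈ Q, ∑ X ∈ Fl, a p X * e p X y) = fun y => ∑ κ ∈ K, ∑ p ∈ Q,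
        ∑ X ∈ Fl.filter (fun X => pdt_key A p X = κ), a p X * e p X y := by
      funext y
      exact hlowsum ℂ fun p X => a p X * e p X y
    rw [h2]
    refine pdt_B_mono h1 ?_
    rw [← Finset.mul_sum, ← hlowsum ℝ fun p X => ‖a p X‖ ^ 2]
    refine mul_le_mul_of_nonneg_left ?_ (Nat.cast_nonneg n₀)
    have h3 : ∑ p ∈ Q, ∑ X ∈ Fl, ‖a p X‖ ^ 2 ≤ ∑ _p ∈ Q, (2 : ℝ) :=
      Finset.sum_le_sum fun p hp => (Finset.sum_le_sum_of_subset_of_nonneg hlsub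
        fun X _ _ => sq_nonneg _).trans (ha2 p hp)
    refine h3.trans (le_of_eq ?_)
    rw [Finset.sum_const, nsmul_eq_mul, mul_comm]
  -- assembly
  obtain ⟨c₀, hc₀⟩ : ∃ c₀ : ℂ, c₀ = ∑ p ∈ Q, a p 0 := ⟨_, rfl⟩
  have hB0 := pdt_B_one c₀ (fun _ => 1) (fun _ => by rw [norm_one])
  have hZl : pdt_Z (fun y => ∑ p ∈ Q, ∑ X ∈ Fl, a p X * e p X y) (fun _ => c₀ * 1) :=
    pdt_Z_sum Q fun p hp => pdt_Z_sum Fl fun X hX =>
      pdt_Z_smul2 _ _ (hzero p hp X (hlow X hX).1)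
  have hZh : pdt_Z (fun y => ∑ p ∈ Q, ∑ X ∈ Fh, a p X * e p X y) (fun _ => c₀ * 1) :=
    pdt_Z_sum Q fun p hp => pdt_Z_sum Fh fun X hX =>
      pdt_Z_smul2 _ _ (hzero p hp X (hhne X hX))
  have hfin := pdt_B_add hB0 (pdt_B_two hBl hBh) (pdt_Z_symm (pdt_Z_add hZl hZh))
  filter_upwards [hfin ε hε] with M hM
  refine (le_of_eq ?_).trans (hM.trans (le_of_eq ?_))
  · refine Finset.sum_congr rfl fun y _ => ?_
    have h1 : ∑ p ∈ Q, ∑ X ∈ F, a p X * mFourier X (S^[p * y] x) = c₀ * 1 +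
        (∑ p ∈ Q, ∑ X ∈ Fl, a p X * e p X y + ∑ p ∈ Q, ∑ X ∈ Fh, a p X * e p X y) := by
      rw [← Finset.sum_add_distrib, mul_one, hc₀, ← Finset.sum_add_distrib]
      refine Finset.sum_congr rfl fun p _ => ?_
      rw [hsplit, he]
      simp only [UnitAddTorus.mFourier_zero, ContinuousMap.one_apply, mul_one]
    rw [h1]
  · rw [← hc₀, Finset.sum_const, nsmul_eq_mul]
    ring

end Pool.Agent.Helper16.BZ
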